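import Mathlib

/-!
# The diameter of the genus-preserving chord swap graph is not of order `n + g ^ 2`

For `n = 2 m + 1` sides pairs and genus `g = m` (two vertices) every chord diagram can be brought
to the canonical diagram `abab abab ... abab cc` by at most `4 m` genus-preserving chord swaps, so
the diameter is at most `8 m`.  Hence no lower bound `c * (n + g ^ 2)` with `c > 0` can hold.
-/

namespace Pool.Agent.Results.MP_84806a_co.NoQuadraticLowerBound

set_option linter.unusedSectionVars false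
set_option linter.unusedVariables false

/-! ### The definitions of the problem -/

/-- A chord diagram with `n` chords on the `2 n` sides of a polygon, the sides being numbered
cyclically by `ZMod (2 * n)`: a perfect matching of the sides, encoded by the fixed-point-free
involution sending each side to the side it is matched with. -/
def ChordDiagram (n : ℕ) : Type :=
  {σ : Equiv.Perm (ZMod (2 * n)) // (∀ i, σ (σ i) = i) ∧ ∀ i, σ i ≠ i}

/-- The number `V` of classes of polygon vertices after the gluing.  Side `i` goes from vertex `i`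
to vertex `i + 1`; gluing side `i` to side `σ i` orientably identifies the start `i` of side `i`
with the end `σ i + 1` of side `σ i`. -/
noncomputable def numVertices {n : ℕ} (X : ChordDiagram n) : ℕ :=
  Nat.card (Quot (fun i j : ZMod (2 * n) => j = X.1 i + 1))

/-- `Y` is a chord swap of `X`: for two distinct chords `{A, B}`, `{C, D}` of `X`, the diagram `Y`
is obtained from `X` by replacing them with `{A, C}`, `{B, D}`.  (The other kind of swap is obtained
by exchanging the names `C` and `D`.) -/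
def IsChordSwap {n : ℕ} (X Y : ChordDiagram n) : Prop :=
  ∃ A B C D : ZMod (2 * n), X.1 A = B ∧ X.1 C = D ∧ C ≠ A ∧ C ≠ B ∧ Y.1 A = C ∧ Y.1 B = D ∧
    ∀ i, i ≠ A → i ≠ B → i ≠ C → i ≠ D → Y.1 i = X.1 i

/-- The graph `G_{n,g}`: its vertices are the chord diagrams with `n` chords and genus `g`, that is
with `V = n + 1 - 2 g`, and two different ones are adjacent when one is a chord swap of the
other. -/
def chordSwapGraph (n g : ℕ) :
    SimpleGraph {X : ChordDiagram n // numVertices X + 2 * g = n + 1} :=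
  SimpleGraph.fromRel (fun X Y => IsChordSwap X.1 Y.1)

/-- `D(n,g)`: the largest distance in `G_{n,g}` between two vertices of the same component.  Since
`G_{n,g}` is connected, or consists of one component and the isolated Bolza diagram, this is the
diameter of the component that is not the isolated Bolza diagram. -/
noncomputable def diameter (n g : ℕ) : ℕ :=
  sSup {d : ℕ | ∃ X Y, (chordSwapGraph n g).Reachable X Y ∧ (chordSwapGraph n g).dist X Y = d}

/-! ### Cycles of permutations and transpositions -/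

open Equiv Equiv.Perm

section Cycles

variable {α : Type*} [DecidableEq α] [Finite α]

/-- Number of cycles (fixed points included). -/
noncomputable def cyc (φ : Perm α) : ℕ := Nat.card (Quotient (SameCycle.setoid φ))

lemma mem_of_sameCycle (f : Perm α) (S : Set α) (hS : ∀ z ∈ S, f z ∈ S) {p q : α} (hp : p ∈ S)
    (h : f.SameCycle p q) : q ∈ S := by
  obtain ⟨n, rfl⟩ := h.exists_nat_pow_eq
  induction n with
  | zero => simpa using hp
  | succ n ih =>
    rw [pow_succ', Perm.mul_apply]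
    exact hS _ (ih ⟨n, by simp⟩)

/-- Effect of a transposition on the cycle relation, upper bound. -/
lemma sameCycle_mul_swap (φ : Perm α) (a b p q : α) (h : (φ * swap a b).SameCycle p q) :
    φ.SameCycle p q ∨ (φ.SameCycle p a ∧ φ.SameCycle q b) ∨
      (φ.SameCycle p b ∧ φ.SameCycle q a) := by
  have key : q ∈ {q | φ.SameCycle p q ∨ (φ.SameCycle p a ∧ φ.SameCycle q b) ∨
      (φ.SameCycle p b ∧ φ.SameCycle q a)} := by
    refine mem_of_sameCycle (φ * swap a b) _ ?_ (Or.inl (SameCycle.refl _ _)) h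
    intro z hz
    simp only [Set.mem_ofPred_eq, Perm.mul_apply] at hz ⊢
    rw [sameCycle_apply_right, sameCycle_apply_left, sameCycle_apply_left]
    by_cases hza : z = a
    · subst hza
      rw [swap_apply_left]
      rcases hz with h1 | ⟨h1, h2⟩ | ⟨h1, h2⟩
      · exact Or.inr (Or.inl ⟨h1, SameCycle.refl _ _⟩)
      · exact Or.inr (Or.inl ⟨h1, SameCycle.refl _ _⟩)
      · exact Or.inl h1
    · by_cases hzb : z = b
      · subst hzb
        rw [swap_apply_right]
        rcases hz with h1 | ⟨h1, h2⟩ | ⟨h1, h2⟩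
        · exact Or.inr (Or.inr ⟨h1, SameCycle.refl _ _⟩)
        · exact Or.inl h1
        · exact Or.inr (Or.inr ⟨h1, SameCycle.refl _ _⟩)
      · rw [swap_apply_of_ne_of_ne hza hzb]
        exact hz
  exact key

lemma mul_swap_mul_swap (φ : Perm α) (a b : α) : φ * swap a b * swap a b = φ := by
  rw [mul_assoc, swap_mul_self, mul_one]

/-- Points of different cycles get joined by multiplying with their transposition. -/
lemma sameCycle_of_not (φ : Perm α) (a b : α) (h : ¬ φ.SameCycle a b) :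
    (φ * swap a b).SameCycle a b := by
  by_contra hcon
  -- the orbit of `a` under `φ * swap a b` meets the `φ`-orbit of `b` in an invariant set
  have hab : a ≠ b := fun e => h (e ▸ SameCycle.refl _ _)
  have h1 : (φ * swap a b) a = φ b := by rw [Perm.mul_apply, swap_apply_left]
  have key : a ∈ {z | (φ * swap a b).SameCycle a z ∧ φ.SameCycle b z} := by
    refine mem_of_sameCycle (φ * swap a b) _ ?_ (p := φ b) ⟨?_, ?_⟩ ?_
    · rintro z ⟨hz1, hz2⟩
      refine ⟨sameCycle_apply_right.2 hz1, ?_⟩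
      have hza : z ≠ a := by rintro rfl; exact h hz2.symm
      have hzb : z ≠ b := by rintro rfl; exact hcon hz1
      rw [Perm.mul_apply, swap_apply_of_ne_of_ne hza hzb]
      exact sameCycle_apply_right.2 hz2
    · rw [← h1]; exact sameCycle_apply_right.2 (SameCycle.refl _ _)
    · exact sameCycle_apply_right.2 (SameCycle.refl _ _)
    · rw [← h1]; exact (sameCycle_apply_left.2 (SameCycle.refl _ _))
  exact h key.2.symm

lemma sameCycle_mul_swap_of (φ : Perm α) (a b p q : α) (hab : (φ * swap a b).SameCycle a b)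
    (h : φ.SameCycle p q) : (φ * swap a b).SameCycle p q := by
  have h' : (φ * swap a b * swap a b).SameCycle p q := by rwa [mul_swap_mul_swap]
  rcases sameCycle_mul_swap (φ * swap a b) a b p q h' with h1 | ⟨h1, h2⟩ | ⟨h1, h2⟩
  · exact h1
  · exact h1.trans (hab.trans h2.symm)
  · exact h1.trans (hab.symm.trans h2.symm)

lemma cyc_merge (φ : Perm α) (a b : α) (h : ¬ φ.SameCycle a b) :
    cyc (φ * swap a b) + 1 = cyc φ := by
  classical
  have hab := sameCycle_of_not φ a b h
  let F : {q : Quotient (SameCycle.setoid φ) // q ≠ Quotient.mk _ b} →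
      Quotient (SameCycle.setoid (φ * swap a b)) := fun q =>
    Quotient.map' (s₁ := SameCycle.setoid φ) (s₂ := SameCycle.setoid (φ * swap a b)) id
      (fun p q hpq => sameCycle_mul_swap_of φ a b p q hab hpq) q.1
  have hF : Function.Bijective F := by
    constructor
    · rintro ⟨q1, h1⟩ ⟨q2, h2⟩ heq
      induction q1 using Quotient.inductionOn with
      | _ p =>
      induction q2 using Quotient.inductionOn with
      | _ q =>
      apply Subtype.ext
      have heq' : (φ * swap a b).SameCycle p q := Quotient.exact heq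
      apply Quotient.sound
      rcases sameCycle_mul_swap φ a b p q heq' with h3 | ⟨h3, h4⟩ | ⟨h3, h4⟩
      · exact h3
      · exact absurd (Quotient.sound h4) h2
      · exact absurd (Quotient.sound h3) h1
    · intro q
      induction q using Quotient.inductionOn with
      | _ p =>
      by_cases hp : φ.SameCycle p b
      · refine ⟨⟨Quotient.mk _ a, fun e => h (Quotient.exact e)⟩, ?_⟩
        apply Quotient.sound
        exact hab.trans (sameCycle_mul_swap_of φ a b _ _ hab hp.symm)
      · exact ⟨⟨Quotient.mk _ p, fun e => hp (Quotient.exact e)⟩, rfl⟩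
  unfold cyc
  have := Fintype.ofFinite α
  have : Finite (Quotient (SameCycle.setoid φ)) := inferInstance
  have := Fintype.ofFinite (Quotient (SameCycle.setoid φ))
  rw [← Nat.card_congr (Equiv.ofBijective F hF), Nat.card_eq_fintype_card,
    Nat.card_eq_fintype_card, Fintype.card_subtype_compl, Fintype.card_subtype_eq]
  have : 0 < Fintype.card (Quotient (SameCycle.setoid φ)) :=
    Fintype.card_pos_iff.2 ⟨Quotient.mk _ b⟩
  omega

/-- First positive time at which the orbit of `a` reaches `b`. -/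
lemma exists_first (φ : Perm α) (a b : α) (h : φ.SameCycle a b) :
    ∃ k : ℕ, 0 < k ∧ (φ ^ k) a = b ∧ ∀ i, 0 < i → i < k → (φ ^ i) a ≠ b := by
  classical
  have hex : ∃ k : ℕ, 0 < k ∧ (φ ^ k) a = b := by
    obtain ⟨i, hi, _, h2⟩ := h.exists_pow_eq''
    exact ⟨i, hi, h2⟩
  refine ⟨Nat.find hex, (Nat.find_spec hex).1, (Nat.find_spec hex).2, ?_⟩
  intro i hi hik hib
  exact Nat.find_min hex hik ⟨hi, hib⟩

/-- The orbit does not come back to its start before reaching `b`. -/
lemma first_ne_start (φ : Perm α) (a b : α) (hab : a ≠ b) (k : ℕ) (hk : (φ ^ k) a = b)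
    (hmin : ∀ i, 0 < i → i < k → (φ ^ i) a ≠ b) (i : ℕ) (hi : 0 < i) (hik : i ≤ k) :
    (φ ^ i) a ≠ a := by
  intro he
  rcases Nat.lt_or_ge i k with h | h
  · apply hmin (k - i) (by omega) (by omega)
    have : (φ ^ k) a = (φ ^ (k - i)) ((φ ^ i) a) := by
      rw [← Perm.mul_apply, ← pow_add]; congr 2; omega
    rw [he] at this
    rw [← this, hk]
  · have : i = k := by omega
    subst this
    exact hab (he.symm.trans hk)

/-- Splitting: two points of one cycle are separated by multiplying with their transposition. -/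
lemma not_sameCycle_of (φ : Perm α) (a b : α) (hab : a ≠ b) (h : φ.SameCycle a b) :
    ¬ (φ * swap a b).SameCycle a b := by
  obtain ⟨k, hk0, hk, hmin⟩ := exists_first φ a b h
  intro hcon
  have hne := first_ne_start φ a b hab k hk hmin
  have key : a ∈ {z | ∃ i, 0 < i ∧ i ≤ k ∧ (φ ^ i) a = z} := by
    refine mem_of_sameCycle (φ * swap a b) _ ?_ (p := b) ⟨k, hk0, le_rfl, hk⟩ hcon.symm
    rintro z ⟨i, hi0, hik, rfl⟩
    rw [Perm.mul_apply]
    rcases Nat.lt_or_ge i k with hlt | hge
    · rw [swap_apply_of_ne_of_ne (hne i hi0 hik) (hmin i hi0 hlt)]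
      exact ⟨i + 1, by omega, by omega, by rw [pow_succ', Perm.mul_apply]⟩
    · have : i = k := by omega
      subst this
      rw [hk, swap_apply_right]
      exact ⟨1, by omega, by omega, by rw [pow_one]⟩
  obtain ⟨i, hi0, hik, he⟩ := key
  exact hne i hi0 hik he

lemma cyc_split (φ : Perm α) (a b : α) (hab : a ≠ b) (h : φ.SameCycle a b) :
    cyc (φ * swap a b) = cyc φ + 1 := by
  have h1 := cyc_merge (φ * swap a b) a b (not_sameCycle_of φ a b hab h)
  rw [mul_swap_mul_swap] at h1
  exact h1.symm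

/-- If `a, b, z` lie on one cycle, cutting at `z, b` or at `a, z` separates `a` and `b`. -/
lemma arc (φ : Perm α) (a b z : α) (hab : a ≠ b) (hza : z ≠ a) (hzb : z ≠ b)
    (h : φ.SameCycle a b) (hz : φ.SameCycle a z) :
    ¬ (φ * swap z b).SameCycle a b ∨ ¬ (φ * swap a z).SameCycle a b := by
  obtain ⟨k, hk0, hk, hmin⟩ := exists_first φ a b h
  have hne := first_ne_start φ a b hab k hk hmin
  by_cases hex : ∃ i, 0 < i ∧ i < k ∧ (φ ^ i) a = z
  · left
    obtain ⟨i, hi0, hik, hiz⟩ := hex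
    -- `z` is not reached again before `b`
    have hnz : ∀ j, i < j → j ≤ k → (φ ^ j) a ≠ z := by
      intro j hij hjk hjz
      apply hmin (k - j + i) (by omega) (by omega)
      have e1 : (φ ^ k) a = (φ ^ (k - j)) ((φ ^ j) a) := by
        rw [← Perm.mul_apply, ← pow_add]; congr 2; omega
      rw [hjz, ← hiz, ← Perm.mul_apply, ← pow_add] at e1
      rw [← e1, hk]
    intro hcon
    have key : a ∈ {y | ∃ j, i < j ∧ j ≤ k ∧ (φ ^ j) a = y} := by
      refine mem_of_sameCycle (φ * swap z b) _ ?_ (p := b) ⟨k, hik, le_rfl, hk⟩ hcon.symm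
      rintro y ⟨j, hij, hjk, rfl⟩
      rw [Perm.mul_apply]
      rcases Nat.lt_or_ge j k with hlt | hge
      · rw [swap_apply_of_ne_of_ne (hnz j hij hjk) (hmin j (by omega) hlt)]
        exact ⟨j + 1, by omega, by omega, by rw [pow_succ', Perm.mul_apply]⟩
      · have : j = k := by omega
        subst this
        rw [hk, swap_apply_right, ← hiz, ← Perm.mul_apply, ← pow_succ']
        exact ⟨i + 1, by omega, by omega, rfl⟩
    obtain ⟨j, hij, hjk, he⟩ := key
    exact hne j (by omega) hjk he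
  · right
    obtain ⟨m, hm0, hm, hmmin⟩ := exists_first φ a z hz
    have hnem := first_ne_start φ a z hza.symm m hm hmmin
    have hkm : k < m := by
      by_contra hle
      have hmk : m ≤ k := by omega
      rcases Nat.lt_or_ge m k with h1 | h1
      · exact hex ⟨m, hm0, h1, hm⟩
      · have : m = k := by omega
        subst this
        exact hzb (hm.symm.trans hk)
    intro hcon
    have key : a ∈ {y | ∃ j, 0 < j ∧ j ≤ m ∧ (φ ^ j) a = y} := by
      refine mem_of_sameCycle (φ * swap a z) _ ?_ (p := b) ⟨k, hk0, hkm.le, hk⟩ hcon.symm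
      rintro y ⟨j, hj0, hjm, rfl⟩
      rw [Perm.mul_apply]
      rcases Nat.lt_or_ge j m with hlt | hge
      · rw [swap_apply_of_ne_of_ne (hnem j hj0 hjm) (hmmin j hj0 hlt)]
        exact ⟨j + 1, by omega, by omega, by rw [pow_succ', Perm.mul_apply]⟩
      · have : j = m := by omega
        subst this
        rw [hm, swap_apply_right]
        exact ⟨1, by omega, by omega, by rw [pow_one]⟩
    obtain ⟨j, hj0, hjm, he⟩ := key
    exact hnem j hj0 hjm he

/-- Recombination of two cycles which separates `a` and `b`. -/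
lemma recombine (φ : Perm α) (a b u w : α) (hab : a ≠ b) (h : φ.SameCycle a b) (huw : u ≠ w)
    (h' : φ.SameCycle u w) (hua : ¬ φ.SameCycle u a) :
    cyc (φ * swap b w * swap u a) = cyc φ ∧ ¬ (φ * swap b w * swap u a).SameCycle a b := by
  have hbw : ¬ φ.SameCycle b w := fun e => hua (h'.trans (e.symm.trans h.symm))
  have hwa : ¬ φ.SameCycle w a := fun e => hua (h'.trans e)
  have hub : ¬ φ.SameCycle u b := fun e => hua (e.trans h.symm)
  have hua' : u ≠ a := fun e => hua (e ▸ SameCycle.refl _ _)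
  constructor
  · have h1 := cyc_merge φ b w hbw
    have h2 := sameCycle_of_not φ b w hbw
    have h3 : (φ * swap b w).SameCycle u a :=
      (sameCycle_mul_swap_of φ b w _ _ h2 h').trans
        (h2.symm.trans (sameCycle_mul_swap_of φ b w _ _ h2 h.symm))
    have h4 := cyc_split (φ * swap b w) u a hua' h3
    omega
  · obtain ⟨k, hk0, hk, hmin⟩ := exists_first φ a b h
    have hne := first_ne_start φ a b hab k hk hmin
    obtain ⟨l, hl0, hl, hlmin⟩ := exists_first φ w u h'.symm
    have hlne := first_ne_start φ w u huw.symm l hl hlmin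
    have hcyca : ∀ i : ℕ, φ.SameCycle a ((φ ^ i) a) := fun i => ⟨i, by simp⟩
    have hcycw : ∀ i : ℕ, φ.SameCycle w ((φ ^ i) w) := fun i => ⟨i, by simp⟩
    intro hcon
    have key : a ∈ {y | (∃ i, 0 < i ∧ i ≤ k ∧ (φ ^ i) a = y) ∨
        (∃ j, 0 < j ∧ j ≤ l ∧ (φ ^ j) w = y)} := by
      refine mem_of_sameCycle (φ * swap b w * swap u a) _ ?_ (p := b)
        (Or.inl ⟨k, hk0, le_rfl, hk⟩) hcon.symm
      rintro y (⟨i, hi0, hik, rfl⟩ | ⟨j, hj0, hjl, rfl⟩)
      · rw [Perm.mul_apply, Perm.mul_apply]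
        have n1 : (φ ^ i) a ≠ u := fun e => hua ((e ▸ hcyca i).symm)
        have n2 : (φ ^ i) a ≠ w := fun e => hwa ((e ▸ hcyca i).symm)
        rw [swap_apply_of_ne_of_ne n1 (hne i hi0 hik)]
        rcases Nat.lt_or_ge i k with hlt | hge
        · rw [swap_apply_of_ne_of_ne (hmin i hi0 hlt) n2]
          exact Or.inl ⟨i + 1, by omega, by omega, by rw [pow_succ', Perm.mul_apply]⟩
        · have : i = k := by omega
          subst this
          rw [hk, swap_apply_left]
          exact Or.inr ⟨1, by omega, by omega, by rw [pow_one]⟩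
      · rw [Perm.mul_apply, Perm.mul_apply]
        have n1 : (φ ^ j) w ≠ a := fun e => hwa (e ▸ hcycw j)
        have n2 : (φ ^ j) w ≠ b := fun e => hbw (e ▸ hcycw j).symm
        rcases Nat.lt_or_ge j l with hlt | hge
        · rw [swap_apply_of_ne_of_ne (hlmin j hj0 hlt) n1,
            swap_apply_of_ne_of_ne n2 (hlne j hj0 hjl)]
          exact Or.inr ⟨j + 1, by omega, by omega, by rw [pow_succ', Perm.mul_apply]⟩
        · have : j = l := by omega
          subst this
          have hab' : a ≠ w := fun e => hwa (e ▸ SameCycle.refl _ _)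
          rw [hl, swap_apply_left, swap_apply_of_ne_of_ne hab hab']
          exact Or.inl ⟨1, by omega, by omega, by rw [pow_one]⟩
    rcases key with ⟨i, hi0, hik, he⟩ | ⟨j, hj0, hjl, he⟩
    · exact hne i hi0 hik he
    · exact hwa (he ▸ hcycw j)

end Cycles

section CardFacts

variable {α : Type*} [DecidableEq α] [Finite α]

lemma exists_not_sameCycle (φ : Perm α) (h : 2 ≤ cyc φ) (a : α) : ∃ b, ¬ φ.SameCycle a b := by
  by_contra hcon
  push Not at hcon
  have : Subsingleton (Quotient (SameCycle.setoid φ)) := by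
    constructor
    intro q1 q2
    induction q1 using Quotient.inductionOn with
    | _ p =>
    induction q2 using Quotient.inductionOn with
    | _ q =>
    exact Quotient.sound ((hcon p).symm.trans (hcon q))
  have h1 : cyc φ ≤ 1 := by
    unfold cyc
    exact Finite.card_le_one_iff_subsingleton.2 this
  omega

lemma sameCycle_of_cyc_one (φ : Perm α) (h : cyc φ = 1) (a b : α) : φ.SameCycle a b := by
  unfold cyc at h
  have h1 : Subsingleton (Quotient (SameCycle.setoid φ)) :=
    Finite.card_le_one_iff_subsingleton.1 (by rw [h])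
  exact Quotient.exact (h1.elim (Quotient.mk (SameCycle.setoid φ) a) (Quotient.mk _ b))

/-- With exactly two cycles, three pairwise non-equivalent points cannot exist. -/
lemma sameCycle_of_cyc_two (φ : Perm α) (h : cyc φ = 2) (a b c : α)
    (hab : ¬ φ.SameCycle a b) (hac : ¬ φ.SameCycle a c) : φ.SameCycle b c := by
  have h1 := cyc_merge φ a b hab
  by_contra hbc
  have h2 : cyc (φ * swap a b) = 1 := by omega
  have h3 := sameCycle_of_cyc_one _ h2 a c
  rcases sameCycle_mul_swap φ a b a c h3 with h4 | ⟨_, h5⟩ | ⟨h4, _⟩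
  · exact hac h4
  · exact hbc h5.symm
  · exact hab h4

end CardFacts

/-! ### Chord swaps as multiplication by two transpositions -/

section Swaps

variable {N : ℕ} [NeZero N]

/-- The permutation whose cycles are the vertices of the glued polygon. -/
def phi (σ : Perm (ZMod N)) : Perm (ZMod N) := Equiv.addRight 1 * σ

lemma phi_apply (σ : Perm (ZMod N)) (i : ZMod N) : phi σ i = σ i + 1 := rfl

/-- The chord swap which creates the chord `x y`. -/
def sw (σ : Perm (ZMod N)) (x y : ZMod N) : Perm (ZMod N) := σ * swap x (σ y) * swap (σ x) y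

lemma phi_sw (σ : Perm (ZMod N)) (x y : ZMod N) :
    phi (sw σ x y) = phi σ * swap x (σ y) * swap (σ x) y := by
  simp only [phi, sw, mul_assoc]

/-- Fixed-point-free involutions. -/
def Inv (σ : Perm (ZMod N)) : Prop := (∀ i, σ (σ i) = i) ∧ ∀ i, σ i ≠ i

variable {σ : Perm (ZMod N)} {x y : ZMod N}

lemma sw_x (hσ : Inv σ) (hxy : x ≠ y) : sw σ x y x = y := by
  unfold sw
  rw [Perm.mul_apply, Perm.mul_apply, swap_apply_of_ne_of_ne (hσ.2 x).symm hxy, swap_apply_left,
    hσ.1]

lemma sw_y (hσ : Inv σ) (hxy : x ≠ y) (hy : y ≠ σ x) : sw σ x y y = x := by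
  unfold sw
  have h1 : σ x ≠ x := hσ.2 x
  have h2 : σ x ≠ σ y := fun e => hxy (σ.injective e)
  rw [Perm.mul_apply, Perm.mul_apply, swap_apply_right, swap_apply_of_ne_of_ne h1 h2, hσ.1]

lemma sw_u (hσ : Inv σ) (hxy : x ≠ y) (hy : y ≠ σ x) : sw σ x y (σ x) = σ y := by
  unfold sw
  have h2 : y ≠ σ y := (hσ.2 y).symm
  rw [Perm.mul_apply, Perm.mul_apply, swap_apply_left, swap_apply_of_ne_of_ne hxy.symm h2]

lemma sw_w (hσ : Inv σ) (hxy : x ≠ y) : sw σ x y (σ y) = σ x := by
  unfold sw
  have h1 : σ y ≠ σ x := fun e => hxy (σ.injective e).symm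
  have h2 : σ y ≠ y := hσ.2 y
  rw [Perm.mul_apply, Perm.mul_apply, swap_apply_of_ne_of_ne h1 h2, swap_apply_right]

lemma sw_other {i : ZMod N} (h1 : i ≠ x) (h2 : i ≠ y) (h3 : i ≠ σ x) (h4 : i ≠ σ y) :
    sw σ x y i = σ i := by
  unfold sw
  rw [Perm.mul_apply, Perm.mul_apply, swap_apply_of_ne_of_ne h3 h2, swap_apply_of_ne_of_ne h1 h4]

lemma sw_inv (hσ : Inv σ) (hxy : x ≠ y) (hy : y ≠ σ x) : Inv (sw σ x y) := by
  have hx' : x ≠ σ y := fun e => hy (by rw [e, hσ.1])
  constructor
  · intro i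
    by_cases h1 : i = x
    · subst h1; rw [sw_x hσ hxy, sw_y hσ hxy hy]
    by_cases h2 : i = y
    · subst h2; rw [sw_y hσ hxy hy, sw_x hσ hxy]
    by_cases h3 : i = σ x
    · subst h3; rw [sw_u hσ hxy hy, sw_w hσ hxy]
    by_cases h4 : i = σ y
    · subst h4; rw [sw_w hσ hxy, sw_u hσ hxy hy]
    rw [sw_other h1 h2 h3 h4, sw_other, hσ.1]
    · intro e; exact h3 (by rw [← e, hσ.1])
    · intro e; exact h4 (by rw [← e, hσ.1])
    · intro e; exact h1 (σ.injective e)
    · intro e; exact h2 (σ.injective e)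
  · intro i
    by_cases h1 : i = x
    · subst h1; rw [sw_x hσ hxy]; exact hxy.symm
    by_cases h2 : i = y
    · subst h2; rw [sw_y hσ hxy hy]; exact hxy
    by_cases h3 : i = σ x
    · subst h3; rw [sw_u hσ hxy hy]; exact fun e => hxy (σ.injective e).symm
    by_cases h4 : i = σ y
    · subst h4; rw [sw_w hσ hxy]; exact fun e => hxy (σ.injective e)
    rw [sw_other h1 h2 h3 h4]
    exact hσ.2 i

/-- One genus-preserving chord swap. -/
def Move (σ τ : Perm (ZMod N)) : Prop :=
  ∃ x y, x ≠ y ∧ y ≠ σ x ∧ τ = sw σ x y ∧ cyc (phi τ) = cyc (phi σ)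

/-- At most `k` genus-preserving chord swaps. -/
inductive Path : ℕ → Perm (ZMod N) → Perm (ZMod N) → Prop
  | refl (k : ℕ) (σ : Perm (ZMod N)) : Path k σ σ
  | step {k : ℕ} {σ τ ρ : Perm (ZMod N)} : Move σ τ → Path k τ ρ → Path (k + 1) σ ρ

lemma Path.mono {k l : ℕ} {σ τ : Perm (ZMod N)} (h : Path k σ τ) (hkl : k ≤ l) : Path l σ τ := by
  induction h generalizing l with
  | refl k σ => exact Path.refl _ _
  | @step k σ τ ρ hm hp ih =>
    obtain ⟨l', rfl⟩ : ∃ l', l = l' + 1 := ⟨l - 1, by omega⟩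
    exact Path.step hm (ih (by omega))

lemma Path.trans {k l : ℕ} {σ τ ρ : Perm (ZMod N)} (h : Path k σ τ) (h' : Path l τ ρ) :
    Path (k + l) σ ρ := by
  induction h with
  | refl k σ => exact h'.mono (by omega)
  | @step k σ τ ρ' hm hp ih =>
    have := Path.step hm (ih h')
    rwa [show k + l + 1 = k + 1 + l by ring] at this

lemma Move.path {σ τ : Perm (ZMod N)} (h : Move σ τ) : Path 1 σ τ := Path.step h (Path.refl _ _)

/-- The generic separating move: `x, w` on one cycle, their partners on different cycles. -/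
lemma cyc_sep (hσ : Inv σ) {w : ZMod N} (hxw : x ≠ w) (h : (phi σ).SameCycle x w)
    (hf : ¬ (phi σ).SameCycle (σ x) (σ w)) :
    Move σ (sw σ x (σ w)) ∧ Inv (sw σ x (σ w)) := by
  have hx1 : x ≠ σ w := by
    rintro rfl
    rw [hσ.1] at hf
    exact hf h.symm
  have hx2 : σ w ≠ σ x := fun e => hxw (σ.injective e).symm
  refine ⟨⟨x, σ w, hx1, hx2, rfl, ?_⟩, sw_inv hσ hx1 hx2⟩
  rw [phi_sw, hσ.1]
  have h1 := cyc_split (phi σ) x w hxw h
  have h2 : ¬ (phi σ * swap x w).SameCycle (σ x) (σ w) := by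
    intro e
    rcases sameCycle_mul_swap _ _ _ _ _ e with e | ⟨e1, e2⟩ | ⟨e1, e2⟩
    · exact hf e
    · exact hf (e1.trans (h.trans e2.symm))
    · exact hf (e1.trans (h.symm.trans e2.symm))
  have h3 := cyc_merge _ _ _ h2
  omega

lemma sep_not (hσ : Inv σ) {w a b : ZMod N} (hxw : x ≠ w) (h : (phi σ).SameCycle x w)
    (hf : ¬ (phi σ).SameCycle (σ x) (σ w)) (hab : (phi σ).SameCycle a b)
    (hcut : ¬ (phi σ * swap x w).SameCycle a b) :
    ¬ (phi (sw σ x (σ w))).SameCycle a b := by
  rw [phi_sw, hσ.1]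
  intro e
  have hdown : ∀ p q, (phi σ * swap x w).SameCycle p q → (phi σ).SameCycle p q := by
    intro p q e
    rcases sameCycle_mul_swap _ _ _ _ _ e with e | ⟨e1, e2⟩ | ⟨e1, e2⟩
    · exact e
    · exact e1.trans (h.trans e2.symm)
    · exact e1.trans (h.symm.trans e2.symm)
  rcases sameCycle_mul_swap _ _ _ _ _ e with e | ⟨e1, e2⟩ | ⟨e1, e2⟩
  · exact hcut e
  · exact hf ((hdown _ _ e1).symm.trans (hab.trans (hdown _ _ e2)))
  · exact hf ((hdown _ _ e2).symm.trans (hab.symm.trans (hdown _ _ e1)))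

end Swaps

/-! ### The two steps: creating a leaf and creating a handle -/

section Steps

variable {N : ℕ} [NeZero N] {σ : Perm (ZMod N)}

/-- Creating the leaf chord `p, p+1` when the corners `p` and `p+2` are different vertices. -/
lemma leaf_move (hσ : Inv σ) (p : ZMod N) (h1 : p ≠ p + 1) (hne : σ p ≠ p + 1)
    (h : ¬ (phi σ).SameCycle p (p + 2)) :
    Move σ (sw σ p (p + 1)) ∧ Inv (sw σ p (p + 1)) ∧ sw σ p (p + 1) p = p + 1 := by
  refine ⟨⟨p, p + 1, h1, hne.symm, rfl, ?_⟩, sw_inv hσ h1 hne.symm, sw_x hσ h1⟩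
  rw [phi_sw]
  -- `w = σ (p+1)` is in the cycle of `p + 2`
  have hw : (phi σ).SameCycle (σ (p + 1)) (p + 2) := by
    have : phi σ (σ (p + 1)) = p + 2 := by
      rw [phi_apply, hσ.1]; ring
    rw [← this]; exact sameCycle_apply_right.2 (SameCycle.refl _ _)
  have hpw : ¬ (phi σ).SameCycle p (σ (p + 1)) := fun e => h (e.trans hw)
  have c1 := cyc_merge _ _ _ hpw
  have hu : phi σ (σ p) = p + 1 := by rw [phi_apply, hσ.1]
  have hup : σ p ≠ p := hσ.2 p
  have huw : σ p ≠ σ (p + 1) := fun e => h1 (σ.injective e)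
  have hu' : (phi σ * swap p (σ (p + 1))) (σ p) = p + 1 := by
    rw [Perm.mul_apply, swap_apply_of_ne_of_ne hup huw, hu]
  have c2 := cyc_split (phi σ * swap p (σ (p + 1))) (σ p) (p + 1) hne
    (by
      have := (sameCycle_apply_right (f := phi σ * swap p (σ (p + 1))) (x := σ p) (y := σ p)).2
        (SameCycle.refl _ _)
      rwa [hu'] at this)
  omega

/-- The separating step: if `p` and `p + 2` are on one cycle, one move separates them, given a
point `z` of that cycle whose partner is on another cycle.  The move only touches chords at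
`p`, `p + 2` and `z`. -/
lemma separate (hσ : Inv σ) (a b z : ZMod N) (hab : a ≠ b) (h : (phi σ).SameCycle a b)
    (hz : (phi σ).SameCycle a z) (hz' : ¬ (phi σ).SameCycle a (σ z)) :
    ∃ x y, (x = a ∨ x = b ∨ x = z) ∧ (y = a ∨ y = b ∨ y = σ a ∨ y = σ b ∨ y = σ z) ∧
      Move σ (sw σ x y) ∧ Inv (sw σ x y) ∧ ¬ (phi (sw σ x y)).SameCycle a b := by
  by_cases hf : (phi σ).SameCycle (σ a) (σ b)
  · by_cases hfa : (phi σ).SameCycle a (σ a)
    · -- partners of `a` and `b` on the same cycle `P`; use `z`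
      have hza : z ≠ a := by rintro rfl; exact hz' hfa
      have hzb : z ≠ b := by rintro rfl; exact hz' (hfa.trans hf)
      rcases arc (phi σ) a b z hab hza hzb h hz with hc | hc
      · -- cut at `z, b`
        have h1 : (phi σ).SameCycle z b := hz.symm.trans h
        have h2 : ¬ (phi σ).SameCycle (σ z) (σ b) :=
          fun e => hz' (hfa.trans (hf.trans e.symm))
        obtain ⟨m1, m2⟩ := cyc_sep hσ hzb h1 h2
        exact ⟨z, σ b, by simp, by simp, m1, m2, sep_not hσ hzb h1 h2 h hc⟩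
      · have h2 : ¬ (phi σ).SameCycle (σ a) (σ z) := fun e => hz' (hfa.trans e)
        obtain ⟨m1, m2⟩ := cyc_sep hσ hza.symm hz h2
        exact ⟨a, σ z, by simp, by simp, m1, m2, sep_not hσ hza.symm hz h2 h hc⟩
    · -- recombination
      have hab' : σ b ≠ σ a := fun e => hab (σ.injective e).symm
      have hba : a ≠ σ b := by
        rintro e
        have : σ a = b := by rw [e, hσ.1]
        exact hfa (by rw [this]; exact h)
      obtain ⟨r1, r2⟩ := recombine (phi σ) a b (σ b) (σ a) hab h hab' hf.symm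
        (fun e => hfa (e.symm.trans hf.symm))
      refine ⟨b, a, by simp, by simp, ⟨b, a, hab.symm, hba, rfl, ?_⟩,
        sw_inv hσ hab.symm hba, ?_⟩
      · rw [phi_sw]; exact r1
      · rw [phi_sw]; exact r2
  · -- partners on different cycles
    obtain ⟨m1, m2⟩ := cyc_sep hσ hab h hf
    exact ⟨a, σ b, by simp, by simp, m1, m2, sep_not hσ hab h hf h (not_sameCycle_of _ _ _ hab h)⟩

/-- Creating a handle at `p, p+1, p+2, p+3` from a leaf at `p, p+1`, with two vertices. -/
lemma handle_moves (hσ : Inv σ) (hcyc : cyc (phi σ) = 2) (p : ZMod N)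
    (hleaf : σ p = p + 1) (h01 : p ≠ p + 1) (h02 : p ≠ p + 2) (h03 : p ≠ p + 3)
    (h12 : p + 1 ≠ p + 2) (h13 : p + 1 ≠ p + 3) (h23 : p + 2 ≠ p + 3) :
    ∃ τ ρ, τ = sw σ p (σ (p + 3)) ∧ ρ = sw τ p (p + 2) ∧ Move σ τ ∧ Move τ ρ ∧ Inv ρ ∧
      ρ p = p + 2 ∧ ρ (p + 1) = p + 3 := by
  have hleaf' : σ (p + 1) = p := by rw [← hleaf, hσ.1]
  set A := σ (p + 3) with hA
  have hAA : σ A = p + 3 := by rw [hA, hσ.1]
  set B := σ (p + 2) with hB
  have hBB : σ B = p + 2 := by rw [hB, hσ.1]
  have hA0 : A ≠ p := by intro e; rw [e, hleaf] at hAA; exact h13 hAA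
  have hA1 : A ≠ p + 1 := by intro e; rw [e, hleaf'] at hAA; exact h03 hAA
  have hA3 : A ≠ p + 3 := hσ.2 _
  have hB0 : B ≠ p := by intro e; rw [e, hleaf] at hBB; exact h12 hBB
  have hB1 : B ≠ p + 1 := by intro e; rw [e, hleaf'] at hBB; exact h02 hBB
  have hB2 : B ≠ p + 2 := hσ.2 _
  have hAB : A ≠ B := fun e => h23 (σ.injective e).symm
  -- `p + 1` is a vertex by itself
  have hfix : phi σ (p + 1) = p + 1 := by rw [phi_apply, hleaf']
  have halone : ∀ c, (phi σ).SameCycle (p + 1) c → c = p + 1 := fun c hc =>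
    (hc.eq_of_left hfix).symm
  have hrest : ∀ a b, a ≠ p + 1 → b ≠ p + 1 → (phi σ).SameCycle a b := fun a b ha hb =>
    sameCycle_of_cyc_two (phi σ) hcyc (p + 1) a b (fun e => ha (halone a e))
      (fun e => hb (halone b e))
  -- `A ≠ p + 2`
  have hA2 : A ≠ p + 2 := by
    intro e
    have hfix3 : phi σ (p + 3) = p + 3 := by
      rw [phi_apply, ← hA, e]; ring
    have := (hrest (p + 3) p h13.symm h01).eq_of_left hfix3
    exact h03 this.symm
  have hB3 : B ≠ p + 3 := by
    intro e; rw [e, ← hA] at hBB; exact hA2 hBB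
  -- first move
  have hy : A ≠ σ p := by rw [hleaf]; exact hA1
  have hinv1 : Inv (sw σ p A) := sw_inv hσ hA0.symm hy
  have hphi1 : phi (sw σ p A) = phi σ * swap (p + 1) A * swap p (p + 3) := by
    rw [phi_sw, hleaf, hAA, mul_assoc, mul_assoc]
    congr 1
    have hd : Perm.Disjoint (swap p (p + 3)) (swap (p + 1) A) := by
      rw [Perm.disjoint_iff_disjoint_support, support_swap h03, support_swap hA1.symm,
        Finset.disjoint_left]
      intro t ht ht'
      rw [Finset.mem_insert, Finset.mem_singleton] at ht ht'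
      rcases ht with rfl | rfl <;> rcases ht' with h | h
      · exact h01 h
      · exact hA0 h.symm
      · exact h13 h.symm
      · exact hA3 h.symm
    exact hd.commute.eq
  have hn1 : ¬ (phi σ).SameCycle (p + 1) A := fun e => hA1 (halone _ e)
  have c1 := cyc_merge _ _ _ hn1
  have c1' : cyc (phi σ * swap (p + 1) A) = 1 := by omega
  have hs1 := sameCycle_of_cyc_one _ c1' p (p + 3)
  have c2 := cyc_split _ _ _ h03 hs1
  have hsep := not_sameCycle_of _ _ _ h03 hs1
  rw [← hphi1] at c2 hsep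
  have hcyc1 : cyc (phi (sw σ p A)) = 2 := by omega
  have hm1 : Move σ (sw σ p A) := ⟨p, A, hA0.symm, hy, rfl, by rw [hcyc1, hcyc]⟩
  -- values of the new diagram
  have v0 : sw σ p A p = A := sw_x hσ hA0.symm
  have v1 : sw σ p A (p + 1) = p + 3 := by
    have := sw_u hσ hA0.symm hy
    rwa [hleaf, hAA] at this
  have v2 : sw σ p A (p + 2) = B := by
    rw [sw_other h02.symm hA2.symm (by rw [hleaf]; exact h12.symm) (by rw [hAA]; exact h23)]
  have vB : sw σ p A B = p + 2 := by
    rw [sw_other hB0 hAB.symm (by rw [hleaf]; exact hB1) (by rw [hAA]; exact hB3), hBB]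
  -- second move
  have hy2 : p + 2 ≠ sw σ p A p := by rw [v0]; exact hA2.symm
  have hinv2 : Inv (sw (sw σ p A) p (p + 2)) := sw_inv hinv1 h02 hy2
  have hBp3 : (phi (sw σ p A)).SameCycle B (p + 3) := by
    have : phi (sw σ p A) B = p + 3 := by rw [phi_apply, vB]; ring
    rw [← this]; exact sameCycle_apply_right.2 (SameCycle.refl _ _)
  have hn2 : ¬ (phi (sw σ p A)).SameCycle p B := fun e => hsep (e.trans hBp3)
  have c3 := cyc_merge _ _ _ hn2
  have c3' : cyc (phi (sw σ p A) * swap p B) = 1 := by omega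
  have c4 := cyc_split _ _ _ hA2 (sameCycle_of_cyc_one _ c3' A (p + 2))
  have hphi2 : phi (sw (sw σ p A) p (p + 2)) = phi (sw σ p A) * swap p B * swap A (p + 2) := by
    rw [phi_sw, v0, v2]
  have hm2 : Move (sw σ p A) (sw (sw σ p A) p (p + 2)) :=
    ⟨p, p + 2, h02, hy2, rfl, by rw [hphi2]; omega⟩
  refine ⟨_, _, rfl, rfl, hm1, hm2, hinv2, sw_x hinv1 h02, ?_⟩
  rw [sw_other h01.symm h12 (by rw [v0]; exact hA1.symm) (by rw [v2]; exact hB1.symm), v1]

end Steps

/-! ### Reduction to the canonical diagram -/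

section Canonical

variable {N : ℕ} [NeZero N] {σ : Perm (ZMod N)}

/-- The first `4 k` sides carry the pattern `abab abab ... abab`. -/
def Frozen (k : ℕ) (σ : Perm (ZMod N)) : Prop :=
  ∀ j < k, σ ((4 * j : ℕ) : ZMod N) = ((4 * j + 2 : ℕ) : ZMod N) ∧
    σ ((4 * j + 1 : ℕ) : ZMod N) = ((4 * j + 3 : ℕ) : ZMod N)

lemma cast_inj {a b : ℕ} (ha : a < N) (hb : b < N) (h : (a : ZMod N) = (b : ZMod N)) : a = b := by
  have := congrArg ZMod.val h
  rwa [ZMod.val_natCast_of_lt ha, ZMod.val_natCast_of_lt hb] at this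

lemma cast_val (z : ZMod N) : ((z.val : ℕ) : ZMod N) = z := by simp

lemma frozen_closed {k : ℕ} (hσ : Inv σ) (hk : 4 * k ≤ N) (hF : Frozen k σ) (z : ZMod N)
    (hz : z.val < 4 * k) : (σ z).val < 4 * k := by
  obtain ⟨j, hj, hr⟩ : ∃ j, j < k ∧ (z.val = 4 * j ∨ z.val = 4 * j + 1 ∨ z.val = 4 * j + 2 ∨
    z.val = 4 * j + 3) := ⟨z.val / 4, by omega, by omega⟩
  obtain ⟨h1, h2⟩ := hF j hj
  have h3 : σ ((4 * j + 2 : ℕ) : ZMod N) = ((4 * j : ℕ) : ZMod N) := by rw [← h1, hσ.1]
  have h4 : σ ((4 * j + 3 : ℕ) : ZMod N) = ((4 * j + 1 : ℕ) : ZMod N) := by rw [← h2, hσ.1]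
  rcases hr with h | h | h | h <;> rw [← cast_val z, h]
  · rw [h1, ZMod.val_natCast_of_lt (by omega)]; omega
  · rw [h2, ZMod.val_natCast_of_lt (by omega)]; omega
  · rw [h3, ZMod.val_natCast_of_lt (by omega)]; omega
  · rw [h4, ZMod.val_natCast_of_lt (by omega)]; omega

lemma active_closed {k : ℕ} (hσ : Inv σ) (hk : 4 * k ≤ N) (hF : Frozen k σ) (z : ZMod N)
    (hz : 4 * k ≤ z.val) : 4 * k ≤ (σ z).val := by
  by_contra hcon
  have := frozen_closed hσ hk hF (σ z) (by omega)
  rw [hσ.1] at this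
  omega

lemma frozen_sw {k : ℕ} (hσ : Inv σ) (hk : 4 * k ≤ N) (hF : Frozen k σ) {x y : ZMod N}
    (hx : 4 * k ≤ x.val) (hy : 4 * k ≤ y.val) : Frozen k (sw σ x y) := by
  have hx' := active_closed hσ hk hF x hx
  have hy' := active_closed hσ hk hF y hy
  intro j hj
  obtain ⟨h1, h2⟩ := hF j hj
  have key : ∀ i : ℕ, i < 4 * k → sw σ x y (i : ZMod N) = σ (i : ZMod N) := by
    intro i hi
    have hv : ((i : ℕ) : ZMod N).val = i := ZMod.val_natCast_of_lt (by omega)
    apply sw_other
    · intro e; rw [← e, hv] at hx; omega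
    · intro e; rw [← e, hv] at hy; omega
    · intro e; rw [← e, hv] at hx'; omega
    · intro e; rw [← e, hv] at hy'; omega
  exact ⟨by rw [key _ (by omega), h1], by rw [key _ (by omega), h2]⟩

/-- All frozen corners and the corner `4 k` are one vertex. -/
lemma frozen_same {k : ℕ} (hσ : Inv σ) (hF : Frozen k σ) :
    ∀ j ≤ k, (phi σ).SameCycle 0 ((4 * j : ℕ) : ZMod N) ∧
      ∀ i < 4 * j, (phi σ).SameCycle 0 ((i : ℕ) : ZMod N) := by
  have step : ∀ z : ZMod N, (phi σ).SameCycle z (σ z + 1) := fun z =>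
    sameCycle_apply_right.2 (SameCycle.refl _ _)
  intro j
  induction j with
  | zero => intro _; exact ⟨by simp [SameCycle.refl], by intro i hi; omega⟩
  | succ j ih =>
    intro hj
    obtain ⟨h0, hi⟩ := ih (by omega)
    obtain ⟨h1, h2⟩ := hF j (by omega)
    have h3 : σ ((4 * j + 2 : ℕ) : ZMod N) = ((4 * j : ℕ) : ZMod N) := by rw [← h1, hσ.1]
    have h4 : σ ((4 * j + 3 : ℕ) : ZMod N) = ((4 * j + 1 : ℕ) : ZMod N) := by rw [← h2, hσ.1]
    have s1 := step ((4 * j : ℕ) : ZMod N)
    have s2 := step ((4 * j + 3 : ℕ) : ZMod N)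
    have s3 := step ((4 * j + 2 : ℕ) : ZMod N)
    have s4 := step ((4 * j + 1 : ℕ) : ZMod N)
    rw [h1] at s1
    rw [h4] at s2
    rw [h3] at s3
    rw [h2] at s4
    have e1 : ((4 * j + 2 : ℕ) : ZMod N) + 1 = ((4 * j + 3 : ℕ) : ZMod N) := by push_cast; ring
    have e2 : ((4 * j + 1 : ℕ) : ZMod N) + 1 = ((4 * j + 2 : ℕ) : ZMod N) := by push_cast; ring
    have e3 : ((4 * j : ℕ) : ZMod N) + 1 = ((4 * j + 1 : ℕ) : ZMod N) := by push_cast; ring
    have e4 : ((4 * j + 3 : ℕ) : ZMod N) + 1 = ((4 * (j + 1) : ℕ) : ZMod N) := by push_cast; ring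
    rw [e1] at s1
    rw [e2] at s2
    rw [e3] at s3
    rw [e4] at s4
    have t3 := h0.trans s1
    have t2 := t3.trans s2
    have t1 := t2.trans s3
    have t4 := t1.trans s4
    refine ⟨t4, fun i hi' => ?_⟩
    have : i < 4 * j ∨ i = 4 * j ∨ i = 4 * j + 1 ∨ i = 4 * j + 2 ∨ i = 4 * j + 3 := by omega
    rcases this with h | rfl | rfl | rfl | rfl
    · exact hi i h
    · exact h0
    · exact t1
    · exact t2
    · exact t3

/-- If there are at least two vertices, some active side at the vertex of corner `4 k` is glued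
to a side at another vertex. -/
lemma exists_exit {k : ℕ} (hσ : Inv σ) (hk : 4 * k < N) (hF : Frozen k σ)
    (hcyc : 2 ≤ cyc (phi σ)) : ∃ z : ZMod N, 4 * k ≤ z.val ∧
      (phi σ).SameCycle ((4 * k : ℕ) : ZMod N) z ∧
      ¬ (phi σ).SameCycle ((4 * k : ℕ) : ZMod N) (σ z) := by
  by_contra hcon
  push Not at hcon
  obtain ⟨b, hb⟩ := exists_not_sameCycle (phi σ) hcyc ((4 * k : ℕ) : ZMod N)
  apply hb
  obtain ⟨h0, hfr⟩ := frozen_same hσ hF k le_rfl
  have hact : ∀ i : ℕ, 4 * k + i < N →
      (phi σ).SameCycle ((4 * k : ℕ) : ZMod N) ((4 * k + i : ℕ) : ZMod N) := by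
    intro i
    induction i with
    | zero => intro _; exact SameCycle.refl _ _
    | succ i ih =>
      intro hi
      have h1 := ih (by omega)
      have h2 := hcon _ (by rw [ZMod.val_natCast_of_lt (by omega)]; omega) h1
      have h3 := (sameCycle_apply_right (f := phi σ)).2 h2
      rw [phi_apply, hσ.1] at h3
      have e : ((4 * k + i : ℕ) : ZMod N) + 1 = ((4 * k + (i + 1) : ℕ) : ZMod N) := by
        push_cast; ring
      rwa [e] at h3
  rcases Nat.lt_or_ge b.val (4 * k) with h | h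
  · have := hfr b.val h
    rw [cast_val] at this
    exact h0.symm.trans this
  · have := hact (b.val - 4 * k) (by have := b.val_lt; omega)
    rwa [show 4 * k + (b.val - 4 * k) = b.val by omega, cast_val] at this

/-- One round: at most four moves create the next handle of the canonical diagram. -/
lemma round {k : ℕ} (hσ : Inv σ) (hk : 4 * k + 4 < N) (hF : Frozen k σ)
    (hcyc : cyc (phi σ) = 2) :
    ∃ ρ, Path 4 σ ρ ∧ Inv ρ ∧ Frozen (k + 1) ρ ∧ cyc (phi ρ) = 2 := by
  set p : ZMod N := ((4 * k : ℕ) : ZMod N) with hp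
  have c1 : p + 1 = ((4 * k + 1 : ℕ) : ZMod N) := by rw [hp]; push_cast; ring
  have c2 : p + 2 = ((4 * k + 2 : ℕ) : ZMod N) := by rw [hp]; push_cast; ring
  have c3 : p + 3 = ((4 * k + 3 : ℕ) : ZMod N) := by rw [hp]; push_cast; ring
  have v0 : p.val = 4 * k := by rw [hp]; exact ZMod.val_natCast_of_lt (by omega)
  have v1 : (p + 1).val = 4 * k + 1 := by rw [c1]; exact ZMod.val_natCast_of_lt (by omega)
  have v2 : (p + 2).val = 4 * k + 2 := by rw [c2]; exact ZMod.val_natCast_of_lt (by omega)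
  have v3 : (p + 3).val = 4 * k + 3 := by rw [c3]; exact ZMod.val_natCast_of_lt (by omega)
  have h01 : p ≠ p + 1 := fun e => by have := congrArg ZMod.val e; omega
  have h02 : p ≠ p + 2 := fun e => by have := congrArg ZMod.val e; omega
  have h03 : p ≠ p + 3 := fun e => by have := congrArg ZMod.val e; omega
  have h12 : p + 1 ≠ p + 2 := fun e => by have := congrArg ZMod.val e; omega
  have h13 : p + 1 ≠ p + 3 := fun e => by have := congrArg ZMod.val e; omega
  have h23 : p + 2 ≠ p + 3 := fun e => by have := congrArg ZMod.val e; omega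
  -- first part: create the leaf
  have hleaf : ∃ τ, Path 2 σ τ ∧ Inv τ ∧ Frozen k τ ∧ cyc (phi τ) = 2 ∧ τ p = p + 1 := by
    by_cases hdone : σ p = p + 1
    · exact ⟨σ, Path.refl _ _, hσ, hF, hcyc, hdone⟩
    -- after at most one move, `p` and `p + 2` are different vertices
    have hsep : ∃ τ, Path 1 σ τ ∧ Inv τ ∧ Frozen k τ ∧ cyc (phi τ) = 2 ∧
        ¬ (phi τ).SameCycle p (p + 2) := by
      by_cases hpp : (phi σ).SameCycle p (p + 2)
      · obtain ⟨z, hz1, hz2, hz3⟩ := exists_exit hσ (by omega) hF (by omega)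
        obtain ⟨x, y, hx, hy, hm, hi, hn⟩ := separate hσ p (p + 2) z h02 hpp hz2 hz3
        have hax : 4 * k ≤ x.val := by
          rcases hx with rfl | rfl | rfl
          · omega
          · omega
          · exact hz1
        have hay : 4 * k ≤ y.val := by
          rcases hy with rfl | rfl | rfl | rfl | rfl
          · omega
          · omega
          · exact active_closed hσ (by omega) hF _ (by omega)
          · exact active_closed hσ (by omega) hF _ (by omega)
          · exact active_closed hσ (by omega) hF _ hz1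
        refine ⟨_, hm.path, hi, frozen_sw hσ (by omega) hF hax hay, ?_, hn⟩
        obtain ⟨_, _, _, _, _, hc⟩ := hm
        rw [hc, hcyc]
      · exact ⟨σ, Path.refl _ _, hσ, hF, hcyc, hpp⟩
    obtain ⟨τ, t1, t2, t3, t4, t5⟩ := hsep
    by_cases hdone' : τ p = p + 1
    · exact ⟨τ, t1.mono (by omega), t2, t3, t4, hdone'⟩
    obtain ⟨l1, l2, l3⟩ := leaf_move t2 p h01 hdone' t5
    refine ⟨_, t1.trans l1.path, l2, frozen_sw t2 (by omega) t3 (by omega) (by omega), ?_, l3⟩
    obtain ⟨_, _, _, _, _, hc⟩ := l1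
    rw [hc, t4]
  obtain ⟨τ, t1, t2, t3, t4, t5⟩ := hleaf
  obtain ⟨τ', ρ, e1, e2, m1, m2, hρ, r0, r1⟩ := handle_moves t2 t4 p t5 h01 h02 h03 h12 h13 h23
  have hcyc' : cyc (phi τ') = 2 := by
    obtain ⟨_, _, _, _, _, hc⟩ := m1
    rw [hc, t4]
  have hcycρ : cyc (phi ρ) = 2 := by
    obtain ⟨_, _, _, _, _, hc⟩ := m2
    rw [hc, hcyc']
  have hτ' : Inv τ' := by
    rw [e1]
    have hA0 : τ (p + 3) ≠ p := by
      intro e
      have := congrArg τ e
      rw [t2.1, t5] at this; exact h13 this.symm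
    apply sw_inv t2 hA0.symm
    rw [t5]
    intro e
    have := congrArg τ e
    have h' : τ (p + 1) = p := by rw [← t5, t2.1]
    rw [h', t2.1] at this; exact h03 this.symm
  have hF' : Frozen k τ' := by
    rw [e1]
    exact frozen_sw t2 (by omega) t3 (by omega) (active_closed t2 (by omega) t3 _ (by omega))
  have hF'' : Frozen k ρ := by
    rw [e2]
    exact frozen_sw hτ' (by omega) hF' (by omega) (by omega)
  refine ⟨ρ, (t1.trans m1.path).trans m2.path, hρ, ?_, hcycρ⟩
  intro j hj
  rcases Nat.lt_succ_iff_lt_or_eq.1 hj with h | rfl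
  · exact hF'' j h
  · rw [← hp, ← c1, ← c2, ← c3]
    exact ⟨r0, r1⟩

/-- All rounds together. -/
lemma rounds (m : ℕ) (hN : N = 4 * m + 2) (hσ : Inv σ) (hcyc : cyc (phi σ) = 2) :
    ∀ k ≤ m, ∃ ρ, Path (4 * k) σ ρ ∧ Inv ρ ∧ Frozen k ρ ∧ cyc (phi ρ) = 2 := by
  intro k
  induction k with
  | zero => intro _; exact ⟨σ, Path.refl _ _, hσ, by intro j hj; omega, hcyc⟩
  | succ k ih =>
    intro hk
    obtain ⟨ρ, p1, p2, p3, p4⟩ := ih (by omega)
    obtain ⟨ρ', q1, q2, q3, q4⟩ := round p2 (by omega) p3 p4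
    exact ⟨ρ', (p1.trans q1).mono (by omega), q2, q3, q4⟩

/-- The canonical diagram is unique. -/
lemma canonical_unique (m : ℕ) (hN : N = 4 * m + 2) {ρ ρ' : Perm (ZMod N)} (h : Inv ρ)
    (h' : Inv ρ') (hF : Frozen m ρ) (hF' : Frozen m ρ') : ρ = ρ' := by
  have last : ∀ {τ : Perm (ZMod N)}, Inv τ → Frozen m τ →
      τ ((4 * m : ℕ) : ZMod N) = ((4 * m + 1 : ℕ) : ZMod N) := by
    intro τ hτ hFτ
    have h1 := active_closed hτ (by omega) hFτ ((4 * m : ℕ) : ZMod N)
      (by rw [ZMod.val_natCast_of_lt (by omega)])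
    have h2 := (τ ((4 * m : ℕ) : ZMod N)).val_lt
    have h3 : (τ ((4 * m : ℕ) : ZMod N)).val ≠ 4 * m := by
      intro e
      apply hτ.2 ((4 * m : ℕ) : ZMod N)
      rw [← cast_val (τ ((4 * m : ℕ) : ZMod N)), e]
    have h4 : (τ ((4 * m : ℕ) : ZMod N)).val = 4 * m + 1 := by omega
    rw [← cast_val (τ ((4 * m : ℕ) : ZMod N)), h4]
  have l1 := last h hF
  have l2 := last h' hF'
  have l1' : ρ ((4 * m + 1 : ℕ) : ZMod N) = ((4 * m : ℕ) : ZMod N) := by rw [← l1, h.1]
  have l2' : ρ' ((4 * m + 1 : ℕ) : ZMod N) = ((4 * m : ℕ) : ZMod N) := by rw [← l2, h'.1]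
  apply Equiv.ext
  intro z
  rw [← cast_val z]
  have hz := z.val_lt
  obtain ⟨j, hr⟩ : ∃ j, z.val = 4 * j ∨ z.val = 4 * j + 1 ∨ z.val = 4 * j + 2 ∨
    z.val = 4 * j + 3 := ⟨z.val / 4, by omega⟩
  rcases Nat.lt_or_ge j m with hj | hj
  · obtain ⟨a1, a2⟩ := hF j hj
    obtain ⟨b1, b2⟩ := hF' j hj
    have a3 : ρ ((4 * j + 2 : ℕ) : ZMod N) = ((4 * j : ℕ) : ZMod N) := by rw [← a1, h.1]
    have a4 : ρ ((4 * j + 3 : ℕ) : ZMod N) = ((4 * j + 1 : ℕ) : ZMod N) := by rw [← a2, h.1]
    have b3 : ρ' ((4 * j + 2 : ℕ) : ZMod N) = ((4 * j : ℕ) : ZMod N) := by rw [← b1, h'.1]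
    have b4 : ρ' ((4 * j + 3 : ℕ) : ZMod N) = ((4 * j + 1 : ℕ) : ZMod N) := by rw [← b2, h'.1]
    rcases hr with e | e | e | e <;> rw [e]
    · rw [a1, b1]
    · rw [a2, b2]
    · rw [a3, b3]
    · rw [a4, b4]
  · have hjm : j = m := by omega
    subst hjm
    rcases hr with e | e | e | e
    · rw [e, l1, l2]
    · rw [e, l1', l2']
    · omega
    · omega

end Canonical

/-! ### Conclusion -/

section Final

lemma numVertices_eq {n : ℕ} [NeZero (2 * n)] (X : ChordDiagram n) :
    numVertices X = cyc (phi X.1) := by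
  unfold numVertices cyc
  apply Nat.card_congr
  refine
    { toFun := Quot.lift (fun i => Quotient.mk (SameCycle.setoid (phi X.1)) i) ?_
      invFun := Quotient.lift (fun i => Quot.mk _ i) ?_
      left_inv := ?_
      right_inv := ?_ }
  · intro i j h
    apply Quotient.sound
    have : phi X.1 i = j := by rw [phi_apply, h]
    change (phi X.1).SameCycle i j
    rw [← this]
    exact sameCycle_apply_right.2 (SameCycle.refl _ _)
  · intro i j h
    obtain ⟨k, hk⟩ := SameCycle.exists_nat_pow_eq (show (phi X.1).SameCycle i j from h)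
    rw [← hk]
    have key : ∀ k : ℕ, Quot.mk (fun i j : ZMod (2 * n) => j = X.1 i + 1) i =
        Quot.mk _ (((phi X.1) ^ k) i) := by
      intro k
      induction k with
      | zero => rfl
      | succ k ih =>
        rw [ih]
        apply Quot.sound
        rw [pow_succ', Perm.mul_apply, phi_apply]
    exact key k
  · intro q
    induction q using Quot.ind
    rfl
  · intro q
    induction q using Quotient.ind
    rfl

lemma walk_of_path {n g k : ℕ} [NeZero (2 * n)] {σ τ : Perm (ZMod (2 * n))} (h : Path k σ τ) :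
    ∀ X Y : {X : ChordDiagram n // numVertices X + 2 * g = n + 1}, X.1.1 = σ → Y.1.1 = τ →
    ∃ w : (chordSwapGraph n g).Walk X Y, w.length ≤ k := by
  induction h with
  | refl k σ =>
    intro X Y hX hY
    have : X = Y := by
      apply Subtype.ext
      apply Subtype.ext
      rw [hX, hY]
    subst this
    exact ⟨SimpleGraph.Walk.nil, by simp⟩
  | @step k σ τ ρ hm hp ih =>
    intro X Y hX hY
    obtain ⟨x, y, hxy, hy, hτ, hc⟩ := hm
    have hσ : Inv σ := by rw [← hX]; exact X.1.2
    have hτi : Inv τ := by rw [hτ]; exact sw_inv hσ hxy hy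
    let Z0 : ChordDiagram n := ⟨τ, hτi⟩
    have hZ : numVertices Z0 + 2 * g = n + 1 := by
      have h1 := X.2
      rw [numVertices_eq, hX] at h1
      rw [numVertices_eq]
      change cyc (phi τ) + 2 * g = n + 1
      rw [hc]; exact h1
    obtain ⟨w, hw⟩ := ih ⟨Z0, hZ⟩ Y rfl hY
    have hadj : (chordSwapGraph n g).Adj X ⟨Z0, hZ⟩ := by
      unfold chordSwapGraph
      rw [SimpleGraph.fromRel_adj]
      constructor
      · intro e
        have e1 : X.1.1 = τ := by rw [e]
        rw [hX] at e1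
        have e2 : σ x = τ x := by rw [← e1]
        rw [hτ, sw_x hσ hxy] at e2
        exact hy e2.symm
      · left
        refine ⟨x, σ x, y, σ y, by rw [hX], by rw [hX], hxy.symm, hy, ?_, ?_, ?_⟩
        · change τ x = y
          rw [hτ, sw_x hσ hxy]
        · change τ (σ x) = σ y
          rw [hτ, sw_u hσ hxy hy]
        · intro i h1 h2 h3 h4
          change τ i = X.1.1 i
          rw [hτ, hX, sw_other h1 h3 h2 h4]
    exact ⟨SimpleGraph.Walk.cons hadj w, by rw [SimpleGraph.Walk.length_cons]; omega⟩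

/-- For `n = 2 m + 1` and genus `m` the diameter is at most `8 m`. -/
lemma diameter_le (m : ℕ) : diameter (2 * m + 1) m ≤ 8 * m := by
  have : NeZero (2 * (2 * m + 1)) := ⟨by omega⟩
  have hN : 2 * (2 * m + 1) = 4 * m + 2 := by ring
  apply csSup_le'
  rintro d ⟨X, Y, -, rfl⟩
  have hX : cyc (phi X.1.1) = 2 := by
    have := X.2
    rw [numVertices_eq] at this; omega
  have hY : cyc (phi Y.1.1) = 2 := by
    have := Y.2
    rw [numVertices_eq] at this; omega
  obtain ⟨ρ, p1, p2, p3, p4⟩ := rounds m hN X.1.2 hX m le_rfl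
  obtain ⟨ρ', q1, q2, q3, q4⟩ := rounds m hN Y.1.2 hY m le_rfl
  have hρ : ρ = ρ' := canonical_unique m hN p2 q2 p3 q3
  subst hρ
  let Z0 : ChordDiagram (2 * m + 1) := ⟨ρ, p2⟩
  have hZ : numVertices Z0 + 2 * m = 2 * m + 1 + 1 := by
    rw [numVertices_eq]
    change cyc (phi ρ) + 2 * m = 2 * m + 1 + 1
    omega
  obtain ⟨w1, h1⟩ := walk_of_path (g := m) p1 X ⟨Z0, hZ⟩ rfl rfl
  obtain ⟨w2, h2⟩ := walk_of_path (g := m) q1 Y ⟨Z0, hZ⟩ rfl rfl
  calc (chordSwapGraph (2 * m + 1) m).dist X Y ≤ (w1.append w2.reverse).length :=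
        SimpleGraph.dist_le _
    _ = w1.length + w2.length := by
        rw [SimpleGraph.Walk.length_append, SimpleGraph.Walk.length_reverse]
    _ ≤ 8 * m := by omega

/-- **There is no lower bound of the form `c (n + g²)`** for the diameter `D(n,g)` of the
genus-preserving chord swap graph: for every `c > 0` there are `n ≥ 3` and `0 ≤ g ≤ n / 2` with
`D(n,g) < c (n + g²)`. -/
theorem result (c : ℝ) (hc : 0 < c) :
    ∃ n g : ℕ, 3 ≤ n ∧ 2 * g ≤ n ∧ (diameter n g : ℝ) < c * ((n : ℝ) + (g : ℝ) ^ 2) := by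
  obtain ⟨m0, hm0⟩ := exists_nat_gt (8 / c)
  set m : ℕ := m0 + 1 with hm
  have hm1 : (8 : ℝ) / c < m := by
    rw [hm]; push_cast; linarith
  refine ⟨2 * m + 1, m, by omega, by omega, ?_⟩
  have h1 : (diameter (2 * m + 1) m : ℝ) ≤ 8 * m := by exact_mod_cast diameter_le m
  have hmpos : (0 : ℝ) < m := by rw [hm]; push_cast; positivity
  have h2 : 8 < c * m := by
    rw [div_lt_iff₀ hc] at hm1
    linarith
  have h3 : (8 : ℝ) * m < c * (m : ℝ) ^ 2 := by
    have := mul_lt_mul_of_pos_right h2 hmpos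
    calc (8 : ℝ) * m < c * m * m := this
      _ = c * (m : ℝ) ^ 2 := by ring
  have h4 : (0 : ℝ) ≤ c * ((2 * m + 1 : ℕ) : ℝ) := by positivity
  calc (diameter (2 * m + 1) m : ℝ) ≤ 8 * m := h1
    _ < c * (m : ℝ) ^ 2 := h3
    _ ≤ c * ((2 * m + 1 : ℕ) : ℝ) + c * (m : ℝ) ^ 2 := by linarith
    _ = c * (((2 * m + 1 : ℕ) : ℝ) + (m : ℝ) ^ 2) := by ring

end Final

end Pool.Agent.Results.MP_84806a_co.NoQuadraticLowerBound
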